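import Mathlib
import Pool.Agent.Helper383.WaveClassical

set_option autoImplicit false

open Set Filter Topology MeasureTheory intervalIntegral

namespace Pool.Agent.Results.MP_be01ff_an.IntervalRate

open Pool.Agent.Helper383.WavePhi Pool.Agent.Helper383.WaveFlow Pool.Agent.Helper383.WaveSup
open Pool.Agent.Helper383.WaveRay Pool.Agent.Helper383.WaveMain Pool.Agent.Helper383.WaveExist
open Pool.Agent.Helper383.WaveTrans Pool.Agent.Helper383.WaveClassical

/-- Classical solutions, twice continuously differentiable up to the boundary, of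
`u_tt - u_xx + a |u_t|^al u_t = 0` for `t >= 0` and `A <= x <= B` with `u = 0` at `x = A` and
`x = B`. The first argument of `u` is time and the second is space. -/
structure IsClassicalSolution (a al A B : ℝ) (u : ℝ → ℝ → ℝ) : Prop where
  smooth : ContDiff ℝ 2 (fun q : ℝ × ℝ => u q.1 q.2)
  equation : ∀ t x : ℝ, 0 ≤ t → x ∈ Icc A B →
    deriv (fun r => deriv (fun r' => u r' x) r) t - deriv (fun y => deriv (fun y' => u t y') y) x
      + a * (|deriv (fun r => u r x) t| ^ al * deriv (fun r => u r x) t) = 0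
  left_bdry : ∀ t : ℝ, 0 ≤ t → u t A = 0
  right_bdry : ∀ t : ℝ, 0 ≤ t → u t B = 0

/-- The energy: the integral over `(A, B)` of `u_t ^ 2 + u_x ^ 2` at time `t`. -/
noncomputable def energy (A B : ℝ) (u : ℝ → ℝ → ℝ) (t : ℝ) : ℝ :=
  ∫ x in A..B, ((deriv (fun r => u r x) t) ^ 2 + (deriv (fun y => u t y) x) ^ 2)

theorem on_zero {a al L : ℝ} (ha : 0 < a) (hal : 0 < al) (hL : 0 < L) :
    ∃ u : ℝ → ℝ → ℝ, IsClassicalSolution a al 0 L u ∧
      ∃ c C : ℝ, 0 < c ∧ 0 < C ∧ ∀ t : ℝ, 0 ≤ t →
        c * (1 + t) ^ (-2 / al) ≤ energy 0 L u t ∧ energy 0 L u t ≤ C * (1 + t) ^ (-2 / al) := by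
  set k : ℝ := a / 2 ^ (al + 2) with hk
  have hkp : 0 < k := by positivity
  have h2L : 0 < 2 * L := by positivity
  have hpi := Real.pi_pos
  -- initial label function
  have hf : ∀ s : ℝ, HasDerivAt (fun s : ℝ => Real.cos (Real.pi / L * s)) (-(Real.pi / L * Real.sin (Real.pi / L * s))) s := by
    intro s
    have h1 : HasDerivAt (fun s : ℝ => Real.pi / L * s) (Real.pi / L) s := by
      simpa using (hasDerivAt_id s).const_mul (Real.pi / L)
    have h2 := h1.cos
    exact h2.congr_deriv (by ring)
  have hper : ∀ s : ℝ, Real.cos (Real.pi / L * (s + 2 * L)) = Real.cos (Real.pi / L * s) := by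
    intro s
    have : Real.pi / L * (s + 2 * L) = Real.pi / L * s + 2 * Real.pi := by field_simp
    rw [this, Real.cos_add_two_pi]
  obtain ⟨P, Pt, Ps, hflow, hP0, hPtc, hPsc, hPt, hPs, hodd, hode⟩ :=
    exists_wave hal hkp h2L hf (by fun_prop) hper
  have hnice := nice_kphi (al := al) (k := k) hal hkp
  have hmean0 : ∫ s in (0:ℝ)..(2 * L), P 0 s = 0 := by
    simp only [hP0]
    have h1 : ∫ s in (0:ℝ)..(2 * L), Real.cos (Real.pi / L * s) =
        (L / Real.pi) * Real.sin (Real.pi / L * (2 * L)) - (L / Real.pi) * Real.sin (Real.pi / L * 0) := by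
      apply intervalIntegral.integral_eq_sub_of_hasDerivAt (f := fun s => (L / Real.pi) * Real.sin (Real.pi / L * s))
      · intro s _
        have h1 : HasDerivAt (fun s : ℝ => Real.pi / L * s) (Real.pi / L) s := by
          simpa using (hasDerivAt_id s).const_mul (Real.pi / L)
        have h2 := (h1.sin).const_mul (L / Real.pi)
        refine h2.congr_deriv ?_
        field_simp
      · exact Continuous.intervalIntegrable (by fun_prop) _ _
    rw [h1]
    have : Real.pi / L * (2 * L) = 2 * Real.pi := by field_simp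
    rw [this, Real.sin_two_pi]; simp
  have hmean : ∀ t, 0 ≤ t → ∫ s in (0:ℝ)..(2 * L), P (2 * t) s = 0 := by
    intro t ht
    rw [hflow.mean_eq hnice le_rfl (by positivity : 0 ≤ 2 * t), hmean0]
  have hen0 : 0 < en (2 * L) (P 0) := by
    unfold en
    apply intervalIntegral.integral_pos h2L
    · have := hflow.cont_s 0
      fun_prop
    · intro x _; positivity
    · refine ⟨0, ⟨le_rfl, h2L.le⟩, ?_⟩
      rw [hP0]; simp
  obtain ⟨C, hC, hCb⟩ := flow_upper hal hkp h2L hflow hmean0
  obtain ⟨c, hc, hcb⟩ := flow_lower hal hkp h2L hflow hmean0 hen0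
  have hwt := wave_t hPt hPs hPtc hPsc hodd
  have hwx := wave_x hPs
  have hut : ∀ x, (fun t => deriv (fun r => wave P r x) t) =
      fun t => (1 / 2) * (P (2 * t) (t + x) - P (2 * t) (t - x)) := fun x => funext fun t => (hwt t x).deriv
  have hux : ∀ t, (fun x => deriv (fun y => wave P t y) x) =
      fun x => (1 / 2) * (P (2 * t) (t + x) + P (2 * t) (t - x)) := fun t => funext fun x => (hwx t x).deriv
  have hen : ∀ t, energy 0 L (wave P) t = (1 / 2) * en (2 * L) (P (2 * t)) := by
    intro t
    unfold energy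
    rw [← energy_wave hL (hflow.cont_s (2 * t)) (hflow.per (2 * t)) t]
    apply intervalIntegral.integral_congr
    intro x _
    have e1 := (hwt t x).deriv
    have e2 := (hwx t x).deriv
    simp only [e1, e2]
  refine ⟨wave P, ⟨wave_contDiff hPt hPs hPtc hPsc hodd, ?_, fun t _ => wave_zero P t,
    fun t ht => wave_L hflow.per t (hmean t ht)⟩, (1 / 2) * c * 2 ^ (-2 / al), (1 / 2) * C,
    by positivity, by positivity, ?_⟩
  · intro t x ht _
    have e3 := (wave_tt hPt hPs hPtc hPsc t x).deriv
    have e4 := (wave_xx hPs t x).deriv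
    rw [hut, hux, e3, e4, (hwt t x).deriv]
    have e5 := hodd (2 * t) (t + x)
    rw [show 2 * t - (t + x) = t - x by ring] at e5
    have e6 := hode (2 * t) (by positivity) (t + x)
    rw [show 2 * t - (t + x) = t - x by ring] at e6
    rw [e5, e6]
    set z := P (2 * t) (t + x) - P (2 * t) (t - x) with hz
    have e7 : |(1 / 2) * z| ^ al = |z| ^ al / 2 ^ al := by
      rw [abs_mul, Real.mul_rpow (abs_nonneg _) (abs_nonneg _), abs_of_pos (by norm_num : (0:ℝ) < 1 / 2),
        Real.div_rpow (by norm_num) (by norm_num), Real.one_rpow]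
      ring
    have e8 : (2:ℝ) ^ (al + 2) = 2 ^ al * 4 := by
      rw [Real.rpow_add (by norm_num)]; norm_num
    have e9 : (2:ℝ) ^ al ≠ 0 := by positivity
    rw [e7, hk, e8, phi]
    field_simp
    ring
  · intro t ht
    have h1t : (0:ℝ) < 1 + t := by linarith
    have hexp : -2 / al ≤ 0 := div_nonpos_of_nonpos_of_nonneg (by norm_num) hal.le
    constructor
    · have h1 := hcb (2 * t) (by positivity)
      have h2 : (2 * (1 + t)) ^ (-2 / al) ≤ (1 + 2 * t) ^ (-2 / al) :=
        Real.rpow_le_rpow_of_nonpos (by positivity) (by linarith) hexp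
      rw [Real.mul_rpow (by norm_num) h1t.le] at h2
      have h3 := mul_le_mul_of_nonneg_left h2 hc.le
      rw [hen]
      calc (1 / 2) * c * 2 ^ (-2 / al) * (1 + t) ^ (-2 / al) =
          (1 / 2) * (c * (2 ^ (-2 / al) * (1 + t) ^ (-2 / al))) := by ring
        _ ≤ (1 / 2) * en (2 * L) (P (2 * t)) :=
          mul_le_mul_of_nonneg_left (h3.trans h1) (by norm_num)
    · have h1 := hCb (2 * t) (by positivity)
      have h2 : (1 + 2 * t) ^ (-2 / al) ≤ (1 + t) ^ (-2 / al) :=
        Real.rpow_le_rpow_of_nonpos h1t (by linarith) hexp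
      have h3 := mul_le_mul_of_nonneg_left h2 hC.le
      rw [hen]
      calc (1 / 2) * en (2 * L) (P (2 * t)) ≤ (1 / 2) * (C * (1 + t) ^ (-2 / al)) :=
          mul_le_mul_of_nonneg_left (h1.trans h3) (by norm_num)
        _ = _ := by ring

/-- For every bounded interval `(A, B)`, every `a > 0` and every `al > 0` there is a classical
solution whose energy is bounded above and below by multiples of `(1 + t) ^ (-2 / al)`. -/
theorem result (a al A B : ℝ) (ha : 0 < a) (hal : 0 < al) (hAB : A < B) :
    ∃ u : ℝ → ℝ → ℝ, IsClassicalSolution a al A B u ∧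
      ∃ c C : ℝ, 0 < c ∧ 0 < C ∧ ∀ t : ℝ, 0 ≤ t →
        c * (1 + t) ^ (-2 / al) ≤ energy A B u t ∧
        energy A B u t ≤ C * (1 + t) ^ (-2 / al) := by
  obtain ⟨u, hu, c, C, hc, hC, hb⟩ := on_zero ha hal (sub_pos.mpr hAB)
  have hsh : ∀ (g : ℝ → ℝ) (x : ℝ), deriv (fun y => g (y - A)) x = deriv g (x - A) := by
    intro g x; exact deriv_comp_sub_const (f := g) (x := x) (a := A)
  refine ⟨fun t x => u t (x - A), ⟨?_, ?_, ?_, ?_⟩, c, C, hc, hC, fun t ht => ?_⟩
  · have : ContDiff ℝ 2 (fun q : ℝ × ℝ => (q.1, q.2 - A)) := by fun_prop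
    exact hu.smooth.comp this
  · intro t x ht hx
    have h1 := hu.equation t (x - A) ht ⟨by linarith [hx.1], by linarith [hx.2]⟩
    have h2 : (fun y => deriv (fun y' => u t (y' - A)) y) = fun y => (fun z => deriv (fun y' => u t y') z) (y - A) := by
      funext y; exact hsh (u t) y
    rw [h2, hsh]
    exact h1
  · intro t ht
    simp only [sub_self]
    exact hu.left_bdry t ht
  · intro t ht
    exact hu.right_bdry t ht
  · have h1 : energy A B (fun t x => u t (x - A)) t = energy 0 (B - A) u t := by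
      unfold energy
      have h2 : ∀ x, (deriv (fun y => u t (y - A)) x) = deriv (fun y => u t y) (x - A) := hsh (u t)
      simp only [h2]
      rw [intervalIntegral.integral_comp_sub_right
        (fun x => (deriv (fun r => u r x) t) ^ 2 + (deriv (fun y => u t y) x) ^ 2) A, sub_self]
    rw [h1]
    exact hb t ht

end Pool.Agent.Results.MP_be01ff_an.IntervalRate
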